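import Mathlib

set_option autoImplicit false

open scoped commutatorElement

namespace Pool.Agent.Results.MP_335823_al.DerivedSeries

/-- In a relatively free group the order of a generic commutator kills all commutators. -/
theorem comm_pow {G : Type} [Group G] (X : Set G)
    (hX : ∀ f : X → G, ∃ φ : G →* G, ∀ x : X, φ x = f x) (x y : X) (hxy : x ≠ y) (m : ℕ)
    (h : ((x : G) * y * (x : G)⁻¹ * (y : G)⁻¹) ^ m = 1) (a b : G) :
    (a * b * a⁻¹ * b⁻¹) ^ m = 1 := by
  classical
  obtain ⟨φ, hφ⟩ := hX (fun z => if z = x then a else b)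
  have h1 : φ x = a := by rw [hφ]; simp
  have h2 : φ y = b := by rw [hφ]; simp [Ne.symm hxy]
  have h3 := congrArg φ h
  simpa [h1, h2] using h3

/-- If all commutators have `m`-th power `1` then the factors of the derived series have exponent
dividing `m`. -/
theorem factor {G : Type} [Group G] (m : ℕ) (h : ∀ a b : G, (a * b * a⁻¹ * b⁻¹) ^ m = 1) (i : ℕ)
    (g : G) (hg : g ∈ derivedSeries G (i + 1)) : g ^ m ∈ derivedSeries G (i + 2) := by
  have hN : (derivedSeries G (i + 2)).Normal := inferInstance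
  rw [derivedSeries_succ, Subgroup.commutator_def] at hg
  have hle : ∀ z ∈ Subgroup.closure {g : G | ∃ g₁ ∈ derivedSeries G i, ∃ g₂ ∈ derivedSeries G i,
      ⁅g₁, g₂⁆ = g}, z ∈ derivedSeries G (i + 1) := by
    intro z hz
    rw [derivedSeries_succ, Subgroup.commutator_def]
    exact hz
  have key : ∀ a ∈ derivedSeries G (i + 1), ∀ b ∈ derivedSeries G (i + 1),
      Commute ((QuotientGroup.mk' (derivedSeries G (i + 2))) a)
        ((QuotientGroup.mk' (derivedSeries G (i + 2))) b) := by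
    intro a ha b hb
    have h1 : a * b * a⁻¹ * b⁻¹ ∈ derivedSeries G (i + 2) := by
      rw [derivedSeries_succ]
      exact Subgroup.commutator_mem_commutator ha hb
    have h2 : (QuotientGroup.mk' (derivedSeries G (i + 2))) (a * b * a⁻¹ * b⁻¹) = 1 :=
      (QuotientGroup.eq_one_iff _).mpr h1
    rw [map_mul, map_mul, map_mul, map_inv, map_inv, mul_inv_eq_one, mul_inv_eq_iff_eq_mul] at h2
    exact h2
  have hq : ∀ z : G, z ^ m ∈ derivedSeries G (i + 2) ↔
      ((QuotientGroup.mk' (derivedSeries G (i + 2))) z) ^ m = 1 := by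
    intro z
    rw [← map_pow]
    exact (QuotientGroup.eq_one_iff _).symm
  rw [hq]
  induction hg using Subgroup.closure_induction with
  | mem x hx =>
    obtain ⟨a, _, b, _, rfl⟩ := hx
    rw [← hq]
    have := h a b
    rw [commutatorElement_def, this]
    exact one_mem _
  | one => rw [map_one, one_pow]
  | mul x y hx hy ihx ihy =>
    rw [map_mul, (key x (hle x hx) y (hle y hy)).mul_pow, ihx, ihy, one_mul]
  | inv x _ ihx => rw [map_inv, inv_pow, ihx, inv_one]

/-- Finite commutator width and infinite rank. -/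
theorem width {G : Type} [Group G] (X : Set G) (hinf : X.Infinite)
    (hX : ∀ f : X → G, ∃ φ : G →* G, ∀ x : X, φ x = f x)
    (hper : ∀ g ∈ commutator G, ∃ n : ℕ, 0 < n ∧ g ^ n = 1) (k : ℕ)
    (hk : ∀ g ∈ commutator G, ∃ a b : Fin k → G,
      g = (List.ofFn fun j => a j * b j * (a j)⁻¹ * (b j)⁻¹).prod) :
    ∃ n : ℕ, 0 < n ∧ ∀ g ∈ commutator G, g ^ n = 1 := by
  have _ : Infinite X := hinf.to_subtype
  let e : ℕ ↪ X := Infinite.natEmbedding X
  let w : G := (List.ofFn fun j : Fin k => (e (2 * j) : G) * e (2 * j + 1) * (e (2 * j) : G)⁻¹ *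
    (e (2 * j + 1) : G)⁻¹).prod
  have hw : w ∈ commutator G := by
    refine list_prod_mem fun z hz => ?_
    rw [List.mem_ofFn] at hz
    obtain ⟨j, rfl⟩ := hz
    exact Subgroup.commutator_mem_commutator (Subgroup.mem_top _) (Subgroup.mem_top _)
  obtain ⟨n, hn, hwn⟩ := hper w hw
  refine ⟨n, hn, fun g hg => ?_⟩
  obtain ⟨a, b, hgab⟩ := hk g hg
  let F : ℕ → G := fun i => if h : i / 2 < k then (if i % 2 = 0 then a ⟨i / 2, h⟩ else b ⟨i / 2, h⟩)
    else 1
  obtain ⟨φ, hφ⟩ := hX (Function.extend e F fun _ => 1)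
  have hF : ∀ i, φ (e i) = F i := fun i => by
    rw [hφ, e.injective.extend_apply]
  have h1 : ∀ j : Fin k, F (2 * j) = a j := by
    intro j
    have h2 : (2 * (j : ℕ)) / 2 = j := by omega
    have h3 : (2 * (j : ℕ)) % 2 = 0 := by omega
    simp [F]
  have h4 : ∀ j : Fin k, F (2 * j + 1) = b j := by
    intro j
    have h2 : (2 * (j : ℕ) + 1) / 2 = j := by omega
    have h3 : (2 * (j : ℕ) + 1) % 2 = 1 := by omega
    simp only [F, h2, h3, j.isLt, dite_true]
    simp
  have hφw : φ w = g := by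
    rw [hgab, map_list_prod, List.map_ofFn]
    congr 2
    funext j
    simp only [Function.comp, map_mul, map_inv, hF, h1, h4]
  rw [← hφw, ← map_pow, hwn, map_one]

/-- **Main result.** Let `G` be relatively free with periodic derived subgroup. (1) For some
`m > 0` all commutators satisfy `c ^ m = 1` and the factors `G^(i)/G^(i+1)`, `i ≥ 1`, have exponent
dividing `m`. (2) If some term of the derived series has finite exponent (for instance if `G` is
soluble) then `G'` has finite exponent. (3) If the rank is infinite and `G'` has finite commutator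
width then `G'` has finite exponent. -/
theorem result :
    ∀ (G : Type) [Group G] (X : Set G), Subgroup.closure X = ⊤ →
      (∀ f : X → G, ∃ φ : G →* G, ∀ x : X, φ x = f x) →
      (∀ g ∈ commutator G, ∃ n : ℕ, 0 < n ∧ g ^ n = 1) →
      (∃ m : ℕ, 0 < m ∧ (∀ a b : G, (a * b * a⁻¹ * b⁻¹) ^ m = 1) ∧
        ∀ i : ℕ, ∀ g ∈ derivedSeries G (i + 1), g ^ m ∈ derivedSeries G (i + 2)) ∧
      ((∃ d n : ℕ, 0 < n ∧ ∀ g ∈ derivedSeries G d, g ^ n = 1) →
        ∃ n : ℕ, 0 < n ∧ ∀ g ∈ commutator G, g ^ n = 1) ∧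
      (X.Infinite → (∃ k : ℕ, ∀ g ∈ commutator G, ∃ a b : Fin k → G,
          g = (List.ofFn fun j => a j * b j * (a j)⁻¹ * (b j)⁻¹).prod) →
        ∃ n : ℕ, 0 < n ∧ ∀ g ∈ commutator G, g ^ n = 1) := by
  intro G _ X hgen hX hper
  have hm : ∃ m : ℕ, 0 < m ∧ ∀ a b : G, (a * b * a⁻¹ * b⁻¹) ^ m = 1 := by
    by_cases hs : X.Subsingleton
    · refine ⟨1, one_pos, fun a b => ?_⟩
      have hcomm : ∀ a b : G, a * b = b * a := by
        intro a b
        have ha : a ∈ Subgroup.closure X := by rw [hgen]; trivial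
        have hb : b ∈ Subgroup.closure X := by rw [hgen]; trivial
        exact (Subgroup.isMulCommutative_closure (fun x hx y hy => by rw [hs hx hy])).is_comm.comm
          ⟨a, ha⟩ ⟨b, hb⟩ |> congrArg Subtype.val
      rw [pow_one, hcomm a b]
      group
    · rw [Set.not_subsingleton_iff] at hs
      obtain ⟨x, hx, y, hy, hne⟩ := hs
      obtain ⟨m, hm0, hm⟩ := hper (x * y * x⁻¹ * y⁻¹)
        (Subgroup.commutator_mem_commutator (Subgroup.mem_top x) (Subgroup.mem_top y))
      exact ⟨m, hm0, fun a b => comm_pow X hX ⟨x, hx⟩ ⟨y, hy⟩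
        (fun h => hne (congrArg Subtype.val h)) m hm a b⟩
  obtain ⟨m, hm0, hm1⟩ := hm
  refine ⟨⟨m, hm0, hm1, fun i g hg => factor m hm1 i g hg⟩, ?_,
    fun hinf ⟨k, hk⟩ => width X hinf hX hper k hk⟩
  rintro ⟨d, n, hn, hd⟩
  refine ⟨m ^ d * n, Nat.mul_pos (pow_pos hm0 d) hn, fun g hg => ?_⟩
  have h1 : ∀ j : ℕ, g ^ m ^ j ∈ derivedSeries G (j + 1) := by
    intro j
    induction j with
    | zero =>
      rw [pow_zero, pow_one, derivedSeries_one]
      exact hg
    | succ j ih =>
      rw [pow_succ, pow_mul]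
      exact factor m hm1 j _ ih
  have h2 : g ^ m ^ d ∈ derivedSeries G d := derivedSeries_antitone G (Nat.le_succ d) (h1 d)
  rw [pow_mul]
  exact hd _ h2

end Pool.Agent.Results.MP_335823_al.DerivedSeries
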